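import Pool.Agent.K7.H12.UI.Conc

/-!
# Project UI, jobs LB1, LB2: lower bounds
-/

set_option autoImplicit false

namespace Pool.Agent.K7.H31.UI

open Pool.Agent.K7.H12.UI

theorem Ok_mono {P : Par} {A A' B : ℕ} (ok : Ok P A B) (hA : A' ≤ A) : Ok P A' B :=
  { ok with
    hr := hA.trans ok.hr
    hb := (Nat.mul_le_mul_right _ hA).trans ok.hb
    hB := (Nat.mul_le_mul_right _ (Nat.mul_le_mul_right _ hA)).trans ok.hB }

/-- bulk vertices -/
def IsBulk {P : Par} (q : Vt P) : Prop := ∃ p, q = bk p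

theorem sizes {P : Par} {A B : ℕ} (ok : Ok P A B) (hA : 1 ≤ A) (hb : P.b * B ≤ P.m)
    (hn : P.r * P.m ≤ Nat.card (Vt P)) : A ≤ P.m ∧ 1 ≤ P.r ∧
      A * (P.m + P.r * B) ≤ 2 * Nat.card (Vt P) ∧
      A * (P.r * B) ≤ Nat.card (Vt P) ∧ A ≤ Nat.card (Vt P) := by
  have h1 := ok.hr
  have h2 := ok.hb
  have h3 := ok.hB
  have ha : 1 ≤ P.r := hA.trans h1
  have hb1 : A ≤ P.b := by nlinarith [Nat.one_le_pow 2 P.r ha]
  have hb2 : 1 ≤ P.b := hA.trans hb1
  have hB1 : A ≤ B := by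
    calc A = A * 1 * 1 := by ring
      _ ≤ A * P.r * P.b := by gcongr
      _ ≤ B := h3
  have hm : A ≤ P.m := by
    calc A ≤ B := hB1
      _ = 1 * B := (one_mul _).symm
      _ ≤ P.b * B := by gcongr
      _ ≤ P.m := hb
  have h4 : A * (P.r * B) ≤ Nat.card (Vt P) := by
    calc A * (P.r * B) ≤ P.b * (P.r * B) := by gcongr
      _ = P.r * (P.b * B) := by ring
      _ ≤ P.r * P.m := by gcongr
      _ ≤ _ := hn
  have h5 : A * P.m ≤ Nat.card (Vt P) := (Nat.mul_le_mul_right _ h1).trans hn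
  refine ⟨hm, ha, by rw [Nat.mul_add]; omega, h4, ?_⟩
  calc A ≤ P.m := hm
    _ = 1 * P.m := (one_mul _).symm
    _ ≤ P.r * P.m := by gcongr
    _ ≤ _ := hn

/-- the arithmetic -/
theorem arith {k q M N : ℕ} {n c : ℝ} (hk : 1 ≤ k) (hq : q ≤ k) (hn : 0 < n) (hc : 0 < c)
    (hc1 : c ≤ 1) (hM : c * n ≤ M) (hN : M ^ (k - q) ≤ N) :
    (c / k) ^ k * ((k : ℝ) / n) ^ q ≤ (N : ℝ) / n ^ k := by
  have hk0 : (0 : ℝ) < k := by exact_mod_cast hk
  have hk1 : (1 : ℝ) ≤ k := by exact_mod_cast hk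
  have h1 : (c * n) ^ (k - q) ≤ N := by
    calc (c * n) ^ (k - q) ≤ (M : ℝ) ^ (k - q) := by gcongr
      _ ≤ N := by exact_mod_cast hN
  have h2 : (c * n) ^ (k - q) / n ^ k ≤ N / n ^ k := by gcongr
  refine le_trans ?_ h2
  have e : n ^ k = n ^ (k - q) * n ^ q := by rw [← pow_add, Nat.sub_add_cancel hq]
  rw [div_pow, div_pow, mul_pow, e, mul_div_mul_comm]
  have e2 : n ^ (k - q) ≠ 0 := by positivity
  have h3 : c ^ k ≤ c ^ (k - q) := pow_le_pow_of_le_one hc.le hc1 (Nat.sub_le _ _)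
  have h4 : (k : ℝ) ^ q ≤ (k : ℝ) ^ k := pow_le_pow_right₀ hk1 hq
  have e3 : c ^ (k - q) * n ^ (k - q) / (n ^ (k - q) * n ^ q) = c ^ (k - q) / n ^ q := by
    field_simp
  have h5 : c ^ k / (k : ℝ) ^ k * ((k : ℝ) ^ q / n ^ q) ≤ c ^ (k - q) / n ^ q := by
    rw [div_mul_div_comm, div_le_div_iff₀ (by positivity) (by positivity)]
    calc c ^ k * (k : ℝ) ^ q * n ^ q ≤ c ^ (k - q) * (k : ℝ) ^ k * n ^ q := by gcongr
      _ = c ^ (k - q) * ((k : ℝ) ^ k * n ^ q) := by ring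
  calc _ = c ^ k / (k : ℝ) ^ k * ((k : ℝ) ^ q / n ^ q) := by ring
    _ ≤ c ^ (k - q) / n ^ q := h5
    _ = _ := by rw [← e3]; ring

/-- the bulk vertices of the rows `1, ..., r` in the columns `k s + t` -/
def colmap {P : Par} (k t : ℕ) (ht : t < k) :
    Fin P.r × Fin (P.m / k) → Vt P := fun u =>
  bk ⟨(u.1.succ, ⟨k * u.2 + t, by
    have h1 := u.2.2
    have h2 : k * (P.m / k) ≤ P.m := Nat.mul_div_le P.m k
    have h3 : k * ((u.2 : ℕ) + 1) ≤ k * (P.m / k) := Nat.mul_le_mul_left _ h1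
    rw [Nat.mul_add, mul_one] at h3
    omega⟩), fun h => absurd h (by simp)⟩

theorem colmap_inj {P : Par} (k t : ℕ) (ht : t < k) :
    Function.Injective (colmap (P := P) k t ht) := by
  rintro ⟨i, s⟩ ⟨i', s'⟩ h
  have h1 := congrArg lab h
  simp only [colmap, bk, lab, Lab.bulk.injEq, Fin.val_succ] at h1
  obtain ⟨h1, h2⟩ := h1
  have hk : 0 < k := by omega
  have h3 : (s : ℕ) = s' := by
    have := Nat.add_right_cancel h2
    exact Nat.eq_of_mul_eq_mul_left hk this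
  rw [Fin.ext (Nat.add_right_cancel h1), Fin.ext h3]

theorem colmap_disj {P : Par} (k t t' : ℕ) (ht : t < k) (ht' : t' < k) (h : t ≠ t') :
    Disjoint (Set.range (colmap (P := P) k t ht)) (Set.range (colmap (P := P) k t' ht')) := by
  rw [Set.disjoint_left]
  rintro _ ⟨⟨i, s⟩, rfl⟩ ⟨⟨i', s'⟩, h1⟩
  have h1 := congrArg lab h1
  simp only [colmap, bk, lab, Lab.bulk.injEq] at h1
  have h2 := congrArg (· % k) h1.2
  simp only [Nat.mul_add_mod, Nat.mod_eq_of_lt ht, Nat.mod_eq_of_lt ht'] at h2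
  exact h h2.symm

theorem bulk_adj {P : Par} {q q' : Vt P} (hq : IsBulk q) (hq' : IsBulk q') (h : q ≠ q') :
    (gph P).Adj q q' := by
  obtain ⟨p, rfl⟩ := hq
  obtain ⟨p', rfl⟩ := hq'
  exact ⟨h, fun h => h⟩

/-- many homomorphisms with prescribed values `η` on `Y` -/
theorem core (hE : StEmb) (hS : StSize) (X : Type) [Finite X] (F : SimpleGraph X)
    (h0 : 0 < Nat.card X) :
    ∃ c : ℝ, 0 < c ∧ ∃ A : ℕ, ∀ (P : Par) (B : ℕ), Ok P A B →
      ∀ (G : SimpleGraph (Vt P)) (E : (X → Vt P) → Prop) (Y : Finset X)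
      (η : X → Vt P) (Bad : Set (Vt P)),
      Set.InjOn η Y → (Bad.ncard : ℝ) ≤ c * Nat.card (Vt P) → (∀ y ∈ Y, η y ∈ Bad) →
      (∀ x y, F.Adj x y → x ∈ Y → y ∈ Y → G.Adj (η x) (η y)) →
      (∀ x ∈ Y, ∀ q, IsBulk q → q ∉ Bad → G.Adj (η x) q) →
      (∀ q q', IsBulk q → IsBulk q' → q ≠ q' → q ∉ Bad → q' ∉ Bad → G.Adj q q') →
      (∀ φ : X → Vt P, (∀ y ∈ Y, φ y = η y) → (∀ x, x ∉ Y → φ x ∉ Bad) → E φ) →
      c * err X (Vt P) Y.card ≤ mu F G E := by
  classical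
  have := Fintype.ofFinite X
  obtain ⟨C, hC, A0, hs⟩ := hS
  set k := Nat.card X with hk
  have hk0 : 0 < k := h0
  have hkR : (0 : ℝ) < k := by exact_mod_cast hk0
  have hkR1 : (1 : ℝ) ≤ k := by exact_mod_cast hk0
  set c2 : ℝ := min 1 (1 / (4 * k * C)) with hc2
  have hc2pos : 0 < c2 := by rw [hc2]; exact lt_min one_pos (by positivity)
  have hc2le : c2 ≤ 1 := min_le_left _ _
  have hc2' : c2 * (4 * k * C) ≤ 1 := by
    have : c2 ≤ 1 / (4 * k * C) := min_le_right _ _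
    rwa [le_div_iff₀ (by positivity)] at this
  have hcle : (c2 / k) ^ k ≤ c2 := by
    have h1 : c2 / k ≤ c2 := div_le_self hc2pos.le hkR1
    have h2 : 0 ≤ c2 / k := by positivity
    calc (c2 / k) ^ k ≤ (c2 / k) ^ 1 := pow_le_pow_of_le_one h2 (h1.trans hc2le) hk0
      _ = c2 / k := pow_one _
      _ ≤ c2 := h1
  refine ⟨(c2 / k) ^ k, by positivity, max A0 (2 * k), ?_⟩
  intro P B ok G E Y η Bad hη hBad hYB hYY hYQ hQQ hEφ
  obtain ⟨hm0, hn0, hbB, -, hn1, hn2, -⟩ := hs P B (Ok_mono ok (le_max_left _ _))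
  have hn2' : P.r * P.m ≤ Nat.card (Vt P) := by exact_mod_cast hn2
  obtain ⟨hm, ha, -, -, -⟩ := sizes ok (by omega) hbB hn2'
  have hm2 : 2 * k ≤ P.m := (le_max_right _ _).trans hm
  set n : ℕ := Nat.card (Vt P) with hn
  have hnR : (0 : ℝ) < n := by exact_mod_cast hn0
  have : Finite (Vt P) := Nat.finite_of_card_ne_zero (by omega)
  -- an enumeration of `X`
  let idx : X ≃ Fin k := Finite.equivFin X
  let Q : X → Set (Vt P) := fun x => Set.range (colmap k (idx x) (idx x).2) \ Bad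
  have hQB : ∀ x q, q ∈ Q x → IsBulk q ∧ q ∉ Bad := by
    rintro x q ⟨⟨u, rfl⟩, hq⟩
    exact ⟨⟨_, rfl⟩, hq⟩
  have hQc : ∀ x, ⌈c2 * (n : ℝ)⌉₊ ≤ (Q x).ncard := by
    intro x
    rw [Nat.ceil_le]
    have h1 : (Set.range (colmap (P := P) k (idx x) (idx x).2)).ncard - Bad.ncard ≤
        (Q x).ncard := Set.le_ncard_sdiff _ _ (Set.toFinite _)
    have h2 : (Set.range (colmap (P := P) k (idx x) (idx x).2)).ncard = P.r * (P.m / k) := by
      rw [← Set.image_univ, Set.ncard_image_of_injective _ (colmap_inj _ _ _), Set.ncard_univ,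
        Nat.card_prod, Nat.card_fin, Nat.card_fin]
    rw [h2] at h1
    have h5 : (P.m : ℝ) ≤ 2 * k * ((P.m / k : ℕ) : ℝ) := by
      have h6 := Nat.div_add_mod P.m k
      have h7 := Nat.mod_lt P.m hk0
      have h8 : 2 ≤ P.m / k := (Nat.le_div_iff_mul_le hk0).2 hm2
      have h9 : P.m ≤ 2 * k * (P.m / k) := by nlinarith
      exact_mod_cast h9
    have h6 : (n : ℝ) ≤ 2 * k * C * ((P.r * (P.m / k) : ℕ) : ℝ) := by
      calc (n : ℝ) ≤ C * (P.r * P.m) := hn1
        _ ≤ C * (P.r * (2 * k * ((P.m / k : ℕ) : ℝ))) := by gcongr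
        _ = _ := by push_cast; ring
    have h7 : 2 * c2 * (n : ℝ) ≤ ((P.r * (P.m / k) : ℕ) : ℝ) := by
      set w : ℝ := ((P.r * (P.m / k) : ℕ) : ℝ) with hw
      have hw0 : 0 ≤ w := Nat.cast_nonneg _
      calc 2 * c2 * (n : ℝ) ≤ 2 * c2 * (2 * k * C * w) := by gcongr
        _ = (c2 * (4 * k * C)) * w := by ring
        _ ≤ 1 * w := by gcongr
        _ = w := one_mul w
    have h8 : ((P.r * (P.m / k) : ℕ) : ℝ) ≤ (Q x).ncard + Bad.ncard := by
      have : P.r * (P.m / k) ≤ (Q x).ncard + Bad.ncard := by omega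
      exact_mod_cast this
    have h9 : (Bad.ncard : ℝ) ≤ c2 * n := hBad.trans (by gcongr)
    linarith
  have hQd : ∀ x y, x ≠ y → Disjoint (Q x) (Q y) := by
    intro x y hxy
    refine Set.disjoint_of_subset Set.sdiff_subset Set.sdiff_subset (colmap_disj _ _ _ _ _ ?_)
    intro he
    exact hxy (idx.injective (Fin.ext he))
  have hemb := hE X (Vt P) F G E Y η Q ⌈c2 * (n : ℝ)⌉₊ hη (fun x _ => hQc x)
    (fun x y _ _ hxy => hQd x y hxy)
    (fun x y _ hy hq => (hQB x _ hq).2 (hYB y hy))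
    hYY
    (fun x y _ hx _ q hq => by
      obtain ⟨h1, h4⟩ := hQB y q hq
      exact hYQ x hx q h1 h4)
    (fun x y hxy _ _ q hq q' hq' => by
      obtain ⟨h1, h4⟩ := hQB x q hq
      obtain ⟨h5, h7⟩ := hQB y q' hq'
      refine hQQ q q' h1 h5 ?_ h4 h7
      rintro rfl
      exact Set.disjoint_left.1 (hQd x y hxy.ne) hq hq')
    (fun φ h1 h2 => hEφ φ h1 fun x hx => (hQB x _ (h2 x hx)).2)
  have hYk : Y.card ≤ k := by
    rw [hk, Nat.card_eq_fintype_card]
    exact Finset.card_le_univ Y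
  unfold mu err
  exact arith hk0 hYk hnR hc2pos hc2le (Nat.le_ceil _) hemb

theorem small (hS : StSize) (ε : ℝ) (hε : 0 < ε) :
    ∃ A : ℕ, ∀ (P : Par) (B : ℕ), Ok P A B →
      Finite (Vt P) ∧ 5 ≤ ε * Nat.card (Vt P) ∧ ∀ v : Vt P,
      ({u | (∃ p, u = bk p) ∧ u ∉ nb (gph P) v}.ncard : ℝ) ≤ ε * Nat.card (Vt P) := by
  obtain ⟨C, hC, A0, hs⟩ := hS
  refine ⟨max A0 (max 1 (max ⌈5 / ε⌉₊ ⌈C / ε⌉₊)), ?_⟩
  intro P B ok
  obtain ⟨hm0, hn0, hbB, -, hn1, hn2, -, -, -, -, -, hmis⟩ :=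
    hs P B (Ok_mono ok (le_max_left _ _))
  have hn2' : P.r * P.m ≤ Nat.card (Vt P) := by exact_mod_cast hn2
  have ok1 := Ok_mono ok (le_max_right _ _)
  obtain ⟨hm, ha, -, h4, h5⟩ := sizes ok1 (le_max_left _ _) hbB hn2'
  have e1 : 5 / ε ≤ ((max 1 (max ⌈5 / ε⌉₊ ⌈C / ε⌉₊) : ℕ) : ℝ) := by
    refine (Nat.le_ceil _).trans ?_
    exact_mod_cast (le_max_left _ _).trans (le_max_right _ _)
  have e2 : C / ε ≤ ((max 1 (max ⌈5 / ε⌉₊ ⌈C / ε⌉₊) : ℕ) : ℝ) := by
    refine (Nat.le_ceil _).trans ?_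
    exact_mod_cast (le_max_right _ _).trans (le_max_right _ _)
  generalize max 1 (max ⌈5 / ε⌉₊ ⌈C / ε⌉₊) = A at e1 e2 h4 h5
  have h4' : (A : ℝ) * (P.r * B) ≤ Nat.card (Vt P) := by exact_mod_cast h4
  have h5' : (A : ℝ) ≤ Nat.card (Vt P) := by exact_mod_cast h5
  rw [div_le_iff₀ hε] at e1 e2
  refine ⟨Nat.finite_of_card_ne_zero (by omega), ?_, fun v => (hmis v).trans ?_⟩
  · nlinarith
  · calc C * ((P.r : ℝ) * B) ≤ (A * ε) * ((P.r : ℝ) * B) := by gcongr
      _ = ε * (A * (P.r * B)) := by ring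
      _ ≤ ε * Nat.card (Vt P) := by gcongr

/-- adjacency in the updated graph -/
theorem upd_adj {V : Type} {G : SimpleGraph V} {s : V} {P : Set V} {a b : V}
    (h : (a ≠ s ∧ b ≠ s ∧ G.Adj a b) ∨ (a = s ∧ b ≠ s ∧ b ∈ P) ∨ (b = s ∧ a ≠ s ∧ a ∈ P)) :
    (upd G s P).Adj a b := h

theorem lb1 (hE : StEmb) (hS : StSize) : StLB1 := by
  classical
  intro X _ F R hR
  obtain ⟨y1, hy1R, y2, hy⟩ := hR
  have hX : 0 < Nat.card X := Nat.card_pos_iff.2 ⟨⟨y1⟩, inferInstance⟩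
  obtain ⟨c, hc, A, hA⟩ := core hE hS X F hX
  obtain ⟨A', hA'⟩ := small hS (c / 3) (by positivity)
  refine ⟨c / 3, by positivity, max A A', ?_⟩
  intro P B ok Z v v' u S hZ hvv huv huv' hvZ huZ huS hcount
  obtain ⟨hfin, h5, hmis⟩ := hA' P B (Ok_mono ok (le_max_right _ _))
  have hne : y1 ≠ y2 := hy.ne
  have hvu : v ≠ u := huv.symm
  set S1 : Set (Vt P) := {y : Vt P | (∃ p, y = bk p) ∧ y ∉ S} with hS1
  set S2 : Set (Vt P) := {q | (∃ p, q = bk p) ∧ q ∉ nb (gph P) u} with hS2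
  set Bad : Set (Vt P) := (({v, v', u} : Set (Vt P)) ∪ Z) ∪ (S1 ∪ S2) with hBad
  set η : X → Vt P := fun y => if y = y1 then v else u with hη
  have e1 : η y1 = v := by simp [hη]
  have e2 : η y2 = u := by simp [hη, hne.symm]
  have hvB : v ∈ Bad := .inl (.inl (by simp))
  have hv'B : v' ∈ Bad := .inl (.inl (by simp))
  have huB : u ∈ Bad := .inl (.inl (by simp))
  have hcount' : (Bad.ncard : ℝ) ≤ c * Nat.card (Vt P) := by
    have h6 := Set.ncard_union_le (({v, v', u} : Set (Vt P)) ∪ Z) (S1 ∪ S2)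
    rw [← hBad] at h6
    have h6' := Set.ncard_union_le ({v, v', u} : Set (Vt P)) Z
    have h7 := Set.ncard_union_le S1 S2
    have h8 : ({v, v', u} : Set (Vt P)).ncard ≤ 3 := by
      refine (Set.ncard_insert_le _ _).trans ?_
      have := Set.ncard_insert_le v' ({u} : Set (Vt P))
      rw [Set.ncard_singleton] at this
      omega
    have h9 := hmis u
    have h10 : (Bad.ncard : ℝ) ≤ 5 + S1.ncard + S2.ncard := by
      have : Bad.ncard ≤ 5 + S1.ncard + S2.ncard := by omega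
      exact_mod_cast this
    linarith
  have key := hA P B (Ok_mono ok (le_max_left _ _))
    (upd (gph P) v S) (fun φ => E1 R Z v v' φ ∧ Uses F v u φ) {y1, y2} η Bad
    ?_ hcount' ?_ ?_ ?_ ?_ ?_
  · rw [Finset.card_pair hne] at key
    refine le_trans ?_ key
    have : 0 ≤ err X (Vt P) 2 := by unfold err; positivity
    nlinarith
  · intro y hy' z hz' he
    simp only [Finset.coe_insert, Finset.coe_singleton, Set.mem_insert_iff,
      Set.mem_singleton_iff] at hy' hz'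
    rcases hy' with rfl | rfl <;> rcases hz' with rfl | rfl
    · rfl
    · rw [e1, e2] at he; exact absurd he hvu
    · rw [e1, e2] at he; exact absurd he.symm hvu
    · rfl
  · intro y hy'
    rcases Finset.mem_insert.1 hy' with rfl | hy'
    · rw [e1]; exact hvB
    · rw [Finset.mem_singleton.1 hy', e2]; exact huB
  · -- edges inside
    have h6 : (upd (gph P) v S).Adj v u := upd_adj (.inr (.inl ⟨rfl, huv, huS⟩))
    intro p q hpq hp hq
    simp only [Finset.mem_insert, Finset.mem_singleton] at hp hq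
    rcases hp with rfl | rfl <;> rcases hq with rfl | rfl
    · exact absurd hpq (SimpleGraph.irrefl _)
    · rw [e1, e2]; exact h6
    · rw [e1, e2]; exact h6.symm
    · exact absurd hpq (SimpleGraph.irrefl _)
  · intro p hp q hq hqB
    have hqv : q ≠ v := fun e => hqB (e ▸ hvB)
    simp only [Finset.mem_insert, Finset.mem_singleton] at hp
    rcases hp with rfl | rfl
    · rw [e1]
      refine upd_adj (.inr (.inl ⟨rfl, hqv, ?_⟩))
      by_contra h6
      exact hqB (.inr (.inl ⟨hq, h6⟩))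
    · rw [e2]
      refine upd_adj (.inl ⟨huv, hqv, ?_⟩)
      by_contra h6
      exact hqB (.inr (.inr ⟨hq, h6⟩))
  · intro q q' hq hq' hqq hqB hqB'
    exact upd_adj (.inl ⟨fun e => hqB (e ▸ hvB), fun e => hqB' (e ▸ hvB), bulk_adj hq hq' hqq⟩)
  · intro φ h6 h7
    have f1 : φ y1 = v := by rw [h6 y1 (by simp), e1]
    have f2 : φ y2 = u := by rw [h6 y2 (by simp), e2]
    refine ⟨⟨⟨y1, hy1R, f1⟩, ?_, ?_⟩, ⟨y1, y2, hy, f1, f2⟩⟩
    · rintro ⟨p, hp⟩
      by_cases hpY : p ∈ ({y1, y2} : Finset X)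
      · simp only [Finset.mem_insert, Finset.mem_singleton] at hpY
        rcases hpY with rfl | rfl
        · exact hvv (f1.symm.trans hp)
        · exact huv' (f2.symm.trans hp)
      · exact h7 p hpY (by rw [hp]; exact hv'B)
    · rintro z hz ⟨p, hp⟩
      by_cases hpY : p ∈ ({y1, y2} : Finset X)
      · simp only [Finset.mem_insert, Finset.mem_singleton] at hpY
        rcases hpY with rfl | rfl
        · exact hvZ (by rw [← f1, hp]; exact hz)
        · exact huZ (by rw [← f2, hp]; exact hz)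
      · exact h7 p hpY (by rw [hp]; exact .inl (.inr hz))

theorem lb2 (hE : StEmb) (hS : StSize) : StLB2 := by
  classical
  intro X _ F R y1 y2 y3 hy1R hy12 hy23 hy13
  have hX : 0 < Nat.card X := Nat.card_pos_iff.2 ⟨⟨y1⟩, inferInstance⟩
  obtain ⟨c, hc, A, hA⟩ := core hE hS X F hX
  obtain ⟨A', hA'⟩ := small hS (c / 3) (by positivity)
  refine ⟨c / 3, by positivity, max A A', ?_⟩
  intro P B ok v v' z z' u S T hvv hzz vz vz' v'z uv uv' uz uz' hzS huS hvT huT hcount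
  obtain ⟨hfin, h5, hmis⟩ := hA' P B (Ok_mono ok (le_max_right _ _))
  have n12 : y1 ≠ y2 := hy12.ne
  have n23 : y2 ≠ y3 := hy23.ne
  have hvu : v ≠ u := uv.symm
  have zu : z ≠ u := uz.symm
  set S1 : Set (Vt P) := {y : Vt P | (∃ p, y = bk p) ∧ (y ∉ S ∨ y ∉ T)} with hS1
  set S2 : Set (Vt P) := {q | (∃ p, q = bk p) ∧ q ∉ nb (gph P) u} with hS2
  set Bad : Set (Vt P) := ({v, v', z, z', u} : Set (Vt P)) ∪ (S1 ∪ S2) with hBad
  set η : X → Vt P := fun y => if y = y1 then v else if y = y2 then z else u with hη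
  have e1 : η y1 = v := by simp [hη]
  have e2 : η y2 = z := by simp [hη, n12.symm]
  have e3 : η y3 = u := by simp [hη, hy13.symm, n23.symm]
  have hcount' : (Bad.ncard : ℝ) ≤ c * Nat.card (Vt P) := by
    have h6 := Set.ncard_union_le ({v, v', z, z', u} : Set (Vt P)) (S1 ∪ S2)
    rw [← hBad] at h6
    have h7 := Set.ncard_union_le S1 S2
    have h8 : ({v, v', z, z', u} : Set (Vt P)).ncard ≤ 5 := by
      have i1 := Set.ncard_insert_le v ({v', z, z', u} : Set (Vt P))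
      have i2 := Set.ncard_insert_le v' ({z, z', u} : Set (Vt P))
      have i3 := Set.ncard_insert_le z ({z', u} : Set (Vt P))
      have i4 := Set.ncard_insert_le z' ({u} : Set (Vt P))
      rw [Set.ncard_singleton] at i4
      omega
    have h9 := hmis u
    have h10 : (Bad.ncard : ℝ) ≤ 5 + S1.ncard + S2.ncard := by
      have : Bad.ncard ≤ 5 + S1.ncard + S2.ncard := by omega
      exact_mod_cast this
    linarith
  have hcard : ({y1, y2, y3} : Finset X).card = 3 := by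
    rw [Finset.card_insert_of_notMem (by simp [n12, hy13]), Finset.card_pair n23]
  have hvB : v ∈ Bad := .inl (by simp)
  have hv'B : v' ∈ Bad := .inl (by simp)
  have hzB : z ∈ Bad := .inl (by simp)
  have hz'B : z' ∈ Bad := .inl (by simp)
  have huB : u ∈ Bad := .inl (by simp)
  have key := hA P B (Ok_mono ok (le_max_left _ _))
    (upd (upd (gph P) v S) z T)
    (fun φ => (E1 R ∅ v v' φ ∧ z' ∉ Set.range φ ∧ Uses F v z φ) ∧ Uses F z u φ) {y1, y2, y3} η Bad
    ?_ hcount' ?_ ?_ ?_ ?_ ?_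
  · rw [hcard] at key
    refine le_trans ?_ key
    have : 0 ≤ err X (Vt P) 3 := by unfold err; positivity
    nlinarith
  · intro y hy' w hw' he
    simp only [Finset.coe_insert, Finset.coe_singleton, Set.mem_insert_iff,
      Set.mem_singleton_iff] at hy' hw'
    rcases hy' with rfl | rfl | rfl <;> rcases hw' with rfl | rfl | rfl <;>
      simp only [e1, e2, e3] at he
    · rfl
    · exact absurd he vz
    · exact absurd he hvu
    · exact absurd he.symm vz
    · rfl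
    · exact absurd he zu
    · exact absurd he.symm hvu
    · exact absurd he.symm zu
    · rfl
  · intro y hy'
    simp only [Finset.mem_insert, Finset.mem_singleton] at hy'
    rcases hy' with rfl | rfl | rfl
    · rw [e1]; exact hvB
    · rw [e2]; exact hzB
    · rw [e3]; exact huB
  · -- edges inside
    have a12 : (upd (upd (gph P) v S) z T).Adj v z := upd_adj (.inr (.inr ⟨rfl, vz, hvT⟩))
    have a23 : (upd (upd (gph P) v S) z T).Adj z u := upd_adj (.inr (.inl ⟨rfl, uz, huT⟩))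
    have a13 : F.Adj y1 y3 → (upd (upd (gph P) v S) z T).Adj v u := by
      intro h6
      exact upd_adj (.inl ⟨vz, uz, upd_adj (.inr (.inl ⟨rfl, uv, huS h6⟩))⟩)
    intro p q hpq hp hq
    simp only [Finset.mem_insert, Finset.mem_singleton] at hp hq
    rcases hp with rfl | rfl | rfl <;> rcases hq with rfl | rfl | rfl <;>
      simp only [e1, e2, e3]
    · exact absurd hpq (SimpleGraph.irrefl _)
    · exact a12
    · exact a13 hpq
    · exact a12.symm
    · exact absurd hpq (SimpleGraph.irrefl _)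
    · exact a23
    · exact (a13 hpq.symm).symm
    · exact a23.symm
    · exact absurd hpq (SimpleGraph.irrefl _)
  · intro p hp q hq hqB
    have qv : q ≠ v := fun e => hqB (e ▸ hvB)
    have qz : q ≠ z := fun e => hqB (e ▸ hzB)
    simp only [Finset.mem_insert, Finset.mem_singleton] at hp
    rcases hp with rfl | rfl | rfl
    · rw [e1]
      refine upd_adj (.inl ⟨vz, qz, upd_adj (.inr (.inl ⟨rfl, qv, ?_⟩))⟩)
      by_contra h6
      exact hqB (.inr (.inl ⟨hq, .inl h6⟩))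
    · rw [e2]
      refine upd_adj (.inr (.inl ⟨rfl, qz, ?_⟩))
      by_contra h6
      exact hqB (.inr (.inl ⟨hq, .inr h6⟩))
    · rw [e3]
      refine upd_adj (.inl ⟨uz, qz, upd_adj (.inl ⟨uv, qv, ?_⟩)⟩)
      by_contra h6
      exact hqB (.inr (.inr ⟨hq, h6⟩))
  · intro q q' hq hq' hqq hqB hqB'
    exact upd_adj (.inl ⟨fun e => hqB (e ▸ hzB), fun e => hqB' (e ▸ hzB), upd_adj
      (.inl ⟨fun e => hqB (e ▸ hvB), fun e => hqB' (e ▸ hvB), bulk_adj hq hq' hqq⟩)⟩)
  · intro φ h6 h7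
    have f1 : φ y1 = v := by rw [h6 y1 (by simp), e1]
    have f2 : φ y2 = z := by rw [h6 y2 (by simp), e2]
    have f3 : φ y3 = u := by rw [h6 y3 (by simp), e3]
    refine ⟨⟨⟨⟨y1, hy1R, f1⟩, ?_, fun _ h8 => absurd h8 (by simp)⟩, ?_, ⟨y1, y2, hy12, f1, f2⟩⟩,
      ⟨y2, y3, hy23, f2, f3⟩⟩
    · rintro ⟨p, hp⟩
      by_cases hpY : p ∈ ({y1, y2, y3} : Finset X)
      · simp only [Finset.mem_insert, Finset.mem_singleton] at hpY
        rcases hpY with rfl | rfl | rfl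
        · exact hvv (f1.symm.trans hp)
        · exact v'z (hp.symm.trans f2)
        · exact uv' (f3.symm.trans hp)
      · exact h7 p hpY (by rw [hp]; exact hv'B)
    · rintro ⟨p, hp⟩
      by_cases hpY : p ∈ ({y1, y2, y3} : Finset X)
      · simp only [Finset.mem_insert, Finset.mem_singleton] at hpY
        rcases hpY with rfl | rfl | rfl
        · exact vz' (f1.symm.trans hp)
        · exact hzz (f2.symm.trans hp)
        · exact uz' (f3.symm.trans hp)
      · exact h7 p hpY (by rw [hp]; exact hz'B)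

end Pool.Agent.K7.H31.UI
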